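import Pool.Agent.PFE.StmtsE2

/-! # HOY: homomorphisms from families -/

set_option autoImplicit false

open scoped BigOperators

noncomputable section

namespace Pool.Agent.PFE.H15

open MulOpposite
open Pool.Agent.PFC.B1 (FS Split BiM Sep)
open Pool.Agent.PFC (tw)
open Pool.Agent.PFD (RF)
open Pool.Agent.PFD.D2
open Pool.Agent.PFD.D2b (wrp FPl FrR)
open Pool.Agent.PFE

section gen

variable {R N N' : Type} [CommRing R] [AddCommGroup N] [Module R N] [AddCommGroup N'] [Module R N']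

/-- the sum of one twisted generator -/
def s1 (l : ℕ) (L : Module.End R N) (L' : Module.End R N') (φ : N →ₗ[R] R) (m : N') (n : N) : N' :=
  ∑ i ∈ Finset.range l, φ ((L ^ (l - 1 - i)) n) • (L' ^ i) m

/-- the sum of one free generator -/
def s2 (l : ℕ) (L Z : Module.End R N) (L' Z' : Module.End R N') (φ : N →ₗ[R] R) (m : N') (n : N) :
    N' :=
  ∑ i ∈ Finset.range l, ∑ k ∈ Finset.range l,
    φ ((L ^ (l - 1 - i)) ((Z ^ (l - 1 - k)) n)) • (L' ^ i) ((Z' ^ k) m)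

theorem pow_comm' {M : Type} [AddCommGroup M] [Module R M] {A B : Module.End R M}
    (h : ∀ n, A (B n) = B (A n)) (a : ℕ) (n : M) : (A ^ a) (B n) = B ((A ^ a) n) := by
  induction a with
  | zero => simp
  | succ a ih => rw [pow_succ', Module.End.mul_apply, ih, h, Module.End.mul_apply]

theorem pow_comm'' {M : Type} [AddCommGroup M] [Module R M] {A B : Module.End R M}
    (h : ∀ n, A (B n) = B (A n)) (a b : ℕ) (n : M) :
    (A ^ a) ((B ^ b) n) = (B ^ b) ((A ^ a) n) :=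
  pow_comm' (fun n => (pow_comm' (fun n => (h n).symm) b n).symm) a n

theorem s1_L {l : ℕ} (hl : 1 ≤ l) {L : Module.End R N} {L' : Module.End R N'} (hL : L ^ l = 0)
    (hL' : L' ^ l = 0) (φ : N →ₗ[R] R) (m : N') (n : N) :
    s1 l L L' φ m (L n) = L' (s1 l L L' φ m n) := by
  obtain ⟨k, rfl⟩ : ∃ k, l = k + 1 := ⟨l - 1, by omega⟩
  unfold s1
  rw [Finset.sum_range_succ', Finset.sum_range_succ (n := k), map_add, map_sum]
  have h1 : φ ((L ^ (k + 1 - 1 - 0)) (L n)) • (L' ^ 0) m = 0 := by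
    have e : (L ^ (k + 1 - 1 - 0)) (L n) = (L ^ (k + 1)) n := by
      rw [pow_succ L k, Module.End.mul_apply]
      rfl
    rw [e, hL, LinearMap.zero_apply, map_zero, zero_smul]
  have h2 : L' (φ ((L ^ (k + 1 - 1 - k)) n) • (L' ^ k) m) = 0 := by
    rw [map_smul]
    have e : L' ((L' ^ k) m) = (L' ^ (k + 1)) m := by
      rw [pow_succ', Module.End.mul_apply]
    rw [e, hL', LinearMap.zero_apply, smul_zero]
  rw [h1, h2, add_zero, add_zero]
  refine Finset.sum_congr rfl fun i hi => ?_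
  rw [Finset.mem_range] at hi
  rw [map_smul]
  have e1 : (L ^ (k + 1 - 1 - (i + 1))) (L n) = (L ^ (k + 1 - 1 - i)) n := by
    have : k + 1 - 1 - i = (k + 1 - 1 - (i + 1)) + 1 := by omega
    rw [this, pow_succ, Module.End.mul_apply]
  have e2 : L' ((L' ^ i) m) = (L' ^ (i + 1)) m := by
    rw [pow_succ', Module.End.mul_apply]
  rw [e1, e2]

theorem s1_R {l : ℕ} (hl : 1 ≤ l) {L Z : Module.End R N} {L' Z' : Module.End R N'}
    (hL : L ^ l = 0) (hL' : L' ^ l = 0) {φ : N →ₗ[R] R} {m : N'} {x x' : R} (hx : x' * x = 1)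
    (hc : ∀ n, L (Z n) = Z (L n)) (hc' : ∀ n, L' (Z' n) = Z' (L' n))
    (hφ : ∀ n, φ (L n) = x * φ (Z n)) (hm : L' m = x • Z' m) (n : N) :
    s1 l L L' φ m (Z n) = Z' (s1 l L L' φ m n) := by
  have h1 : s1 l L L' φ m (Z n) = x' • s1 l L L' φ m (L n) := by
    unfold s1
    rw [Finset.smul_sum]
    refine Finset.sum_congr rfl fun i _ => ?_
    rw [pow_comm' hc, pow_comm' (A := L) (B := L) (fun _ => rfl), hφ, smul_smul, ← mul_assoc, hx,
      one_mul]
  have h2 : Z' m = x' • L' m := by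
    rw [hm, smul_smul, hx, one_smul]
  have h3 : Z' (s1 l L L' φ m n) = x' • L' (s1 l L L' φ m n) := by
    unfold s1
    rw [map_sum, map_sum, Finset.smul_sum]
    refine Finset.sum_congr rfl fun i _ => ?_
    rw [map_smul, map_smul, ← pow_comm' hc', h2, map_smul,
      pow_comm' (A := L') (B := L') (fun _ => rfl), smul_comm]
  rw [h1, h3, s1_L hl hL hL']

theorem s1_U (l : ℕ) {L U : Module.End R N} {L' U' : Module.End R N'}
    (hc : ∀ n, L (U n) = U (L n)) (hc' : ∀ n, L' (U' n) = U' (L' n)) {φ ψ : N →ₗ[R] R}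
    (hφ : ∀ n, ψ (U n) = φ n) (m : N') (n : N) :
    s1 l L L' ψ (U' m) (U n) = U' (s1 l L L' φ m n) := by
  unfold s1
  rw [map_sum]
  refine Finset.sum_congr rfl fun i _ => ?_
  rw [map_smul, pow_comm' hc, hφ, pow_comm' hc']

theorem s2_eqL (l : ℕ) {L Z : Module.End R N} (L' Z' : Module.End R N')
    (hc : ∀ n, L (Z n) = Z (L n)) (φ : N →ₗ[R] R) (m : N') (n : N) :
    s2 l L Z L' Z' φ m n = ∑ k ∈ Finset.range l,
      s1 l L L' (φ ∘ₗ (Z ^ (l - 1 - k) : Module.End R N)) ((Z' ^ k) m) n := by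
  unfold s2 s1
  rw [Finset.sum_comm]
  refine Finset.sum_congr rfl fun k _ => Finset.sum_congr rfl fun i _ => ?_
  rw [LinearMap.comp_apply, pow_comm'' hc]

theorem s2_eqR (l : ℕ) (L Z : Module.End R N) {L' Z' : Module.End R N'}
    (hc' : ∀ n, L' (Z' n) = Z' (L' n)) (φ : N →ₗ[R] R) (m : N') (n : N) :
    s2 l L Z L' Z' φ m n = ∑ i ∈ Finset.range l,
      s1 l Z Z' (φ ∘ₗ (L ^ (l - 1 - i) : Module.End R N)) ((L' ^ i) m) n := by
  unfold s2 s1
  refine Finset.sum_congr rfl fun i _ => Finset.sum_congr rfl fun k _ => ?_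
  rw [LinearMap.comp_apply, pow_comm'' hc']

theorem s2_L {l : ℕ} (hl : 1 ≤ l) {L Z : Module.End R N} {L' Z' : Module.End R N'}
    (hL : L ^ l = 0) (hL' : L' ^ l = 0) (hc : ∀ n, L (Z n) = Z (L n)) (φ : N →ₗ[R] R) (m : N')
    (n : N) : s2 l L Z L' Z' φ m (L n) = L' (s2 l L Z L' Z' φ m n) := by
  rw [s2_eqL l L' Z' hc, s2_eqL l L' Z' hc, map_sum]
  refine Finset.sum_congr rfl fun k _ => ?_
  rw [s1_L hl hL hL']

theorem s2_R {l : ℕ} (hl : 1 ≤ l) {L Z : Module.End R N} {L' Z' : Module.End R N'}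
    (hZ : Z ^ l = 0) (hZ' : Z' ^ l = 0) (hc' : ∀ n, L' (Z' n) = Z' (L' n)) (φ : N →ₗ[R] R)
    (m : N') (n : N) : s2 l L Z L' Z' φ m (Z n) = Z' (s2 l L Z L' Z' φ m n) := by
  rw [s2_eqR l L Z hc', s2_eqR l L Z hc', map_sum]
  refine Finset.sum_congr rfl fun k _ => ?_
  rw [s1_L hl hZ hZ']

theorem s2_U (l : ℕ) {L Z U : Module.End R N} {L' Z' U' : Module.End R N'}
    (hc : ∀ n, L (U n) = U (L n)) (hc' : ∀ n, L' (U' n) = U' (L' n))
    (hd : ∀ n, Z (U n) = U (Z n)) (hd' : ∀ n, Z' (U' n) = U' (Z' n)) {φ ψ : N →ₗ[R] R}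
    (hφ : ∀ n, ψ (U n) = φ n) (m : N') (n : N) :
    s2 l L Z L' Z' ψ (U' m) (U n) = U' (s2 l L Z L' Z' φ m n) := by
  unfold s2
  rw [map_sum]
  refine Finset.sum_congr rfl fun i _ => ?_
  rw [map_sum]
  refine Finset.sum_congr rfl fun k _ => ?_
  rw [map_smul, pow_comm' hd, pow_comm' hc, hφ, pow_comm' hd', pow_comm' hc']

end gen

theorem lm_comm {R Γ N : Type} [CommRing R] [CommRing Γ] [Algebra R Γ] [AddCommGroup N]
    [Module R N] (B : BiM R Γ N) (a b : Γ) (n : N) : B.lm a (B.lm b n) = B.lm b (B.lm a n) := by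
  rw [← Module.End.mul_apply, ← map_mul, mul_comm, map_mul, Module.End.mul_apply]

theorem rm_comm {R Γ N : Type} [CommRing R] [CommRing Γ] [Algebra R Γ] [AddCommGroup N]
    [Module R N] (B : BiM R Γ N) (a b : Γ) (n : N) :
    B.rm (op a) (B.rm (op b) n) = B.rm (op b) (B.rm (op a) n) := by
  rw [← Module.End.mul_apply, ← map_mul, ← op_mul, mul_comm, op_mul, map_mul,
    Module.End.mul_apply]

theorem hoy : HoyStmt := by
  intro R Γ W N N' X Ω Ω' _ _ _ _ _ _ _ _ _ _ _ _ _ _ l G χ B B' q F m m' hl hm hmy hm'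
  obtain ⟨L, hLdef⟩ : ∃ L : Module.End R N, L = B.lm G.y := ⟨_, rfl⟩
  obtain ⟨Z, hZdef⟩ : ∃ Z : Module.End R N, Z = B.rm (op G.y) := ⟨_, rfl⟩
  obtain ⟨L', hLdef'⟩ : ∃ L' : Module.End R N', L' = B'.lm G.y := ⟨_, rfl⟩
  obtain ⟨Z', hZdef'⟩ : ∃ Z' : Module.End R N', Z' = B'.rm (op G.y) := ⟨_, rfl⟩
  have pL : ∀ a : ℕ, B.lm (G.y ^ a) = L ^ a := fun a => by rw [hLdef, map_pow]
  have pL' : ∀ a : ℕ, B'.lm (G.y ^ a) = L' ^ a := fun a => by rw [hLdef', map_pow]
  have pZ : ∀ a : ℕ, B.rm (op (G.y ^ a)) = Z ^ a := fun a => by rw [hZdef, op_pow, map_pow]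
  have pZ' : ∀ a : ℕ, B'.rm (op (G.y ^ a)) = Z' ^ a := fun a => by rw [hZdef', op_pow, map_pow]
  have hL : L ^ l = 0 := by rw [← pL, G.yl, map_zero]
  have hL' : L' ^ l = 0 := by rw [← pL', G.yl, map_zero]
  have hZ : Z ^ l = 0 := by rw [← pZ, G.yl, op_zero, map_zero]
  have hZ' : Z' ^ l = 0 := by rw [← pZ', G.yl, op_zero, map_zero]
  have hc : ∀ n, L (Z n) = Z (L n) := fun n => by rw [hLdef, hZdef, B.comm]
  have hc' : ∀ n, L' (Z' n) = Z' (L' n) := fun n => by rw [hLdef', hZdef', B'.comm]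
  let g : N →ₗ[R] N' :=
    ∑ o, ∑ i ∈ Finset.range l,
      ((F.c o) ∘ₗ (B.lm (G.y ^ (l - 1 - i)))).smulRight (B'.lm (G.y ^ i) (m o)) +
    ∑ o, ∑ i ∈ Finset.range l, ∑ k ∈ Finset.range l,
      ((F.d o) ∘ₗ ((B.lm (G.y ^ (l - 1 - i))) ∘ₗ
        (B.rm (op (G.y ^ (l - 1 - k)))))).smulRight
          (B'.lm (G.y ^ i) (B'.rm (op (G.y ^ k)) (m' o)))
  have hg : ∀ n, g n =
      ∑ o, ∑ i ∈ Finset.range l, F.c o (B.lm (G.y ^ (l - 1 - i)) n) • B'.lm (G.y ^ i) (m o) +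
      ∑ o, ∑ i ∈ Finset.range l, ∑ k ∈ Finset.range l,
        F.d o (B.lm (G.y ^ (l - 1 - i)) (B.rm (op (G.y ^ (l - 1 - k))) n)) •
          B'.lm (G.y ^ i) (B'.rm (op (G.y ^ k)) (m' o)) := by
    intro n
    simp only [g, LinearMap.add_apply, LinearMap.sum_apply, LinearMap.smulRight_apply,
      LinearMap.comp_apply]
  have hs : ∀ n, g n = ∑ o, s1 l L L' (F.c o) (m o) n + ∑ o, s2 l L Z L' Z' (F.d o) (m' o) n := by
    intro n
    rw [hg]
    simp only [pL, pL', pZ, pZ']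
    rfl
  -- the variable `y`
  have gL : ∀ n, g (L n) = L' (g n) := by
    intro n
    rw [hs, hs, map_add, map_sum, map_sum]
    congr 1
    · exact Finset.sum_congr rfl fun o _ => s1_L hl hL hL' _ _ _
    · exact Finset.sum_congr rfl fun o _ => s2_L hl hL hL' hc _ _ _
  have gZ : ∀ n, g (Z n) = Z' (g n) := by
    intro n
    rw [hs, hs, map_add, map_sum, map_sum]
    congr 1
    · refine Finset.sum_congr rfl fun o _ => ?_
      refine s1_R hl hL hL' (x := χ (F.deg o)) (x' := χ (F.deg o)⁻¹) ?_ hc hc' ?_ ?_ n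
      · rw [← map_mul, inv_mul_cancel, map_one]
      · intro n
        rw [hLdef, hZdef]
        exact F.cy o n
      · rw [hLdef', hZdef']
        exact hmy o
    · exact Finset.sum_congr rfl fun o _ => s2_R hl hZ hZ' hc' _ _ _
  -- the group
  have gU : ∀ (w : W × W) (n : N), g (wrp G.om B w n) = wrp G.om B' w (g n) := by
    intro w n
    have u1 : ∀ n, L (wrp G.om B w n) = wrp G.om B w (L n) := by
      intro n
      rw [hLdef]
      change B.lm G.y (B.lm (G.om w.1) (B.rm (op (G.om w.2⁻¹)) n)) =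
        B.lm (G.om w.1) (B.rm (op (G.om w.2⁻¹)) (B.lm G.y n))
      rw [lm_comm, B.comm]
    have u2 : ∀ n, Z (wrp G.om B w n) = wrp G.om B w (Z n) := by
      intro n
      rw [hZdef]
      change B.rm (op G.y) (B.lm (G.om w.1) (B.rm (op (G.om w.2⁻¹)) n)) =
        B.lm (G.om w.1) (B.rm (op (G.om w.2⁻¹)) (B.rm (op G.y) n))
      rw [← B.comm, rm_comm]
    have u1' : ∀ n, L' (wrp G.om B' w n) = wrp G.om B' w (L' n) := by
      intro n
      rw [hLdef']
      change B'.lm G.y (B'.lm (G.om w.1) (B'.rm (op (G.om w.2⁻¹)) n)) =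
        B'.lm (G.om w.1) (B'.rm (op (G.om w.2⁻¹)) (B'.lm G.y n))
      rw [lm_comm, B'.comm]
    have u2' : ∀ n, Z' (wrp G.om B' w n) = wrp G.om B' w (Z' n) := by
      intro n
      rw [hZdef']
      change B'.rm (op G.y) (B'.lm (G.om w.1) (B'.rm (op (G.om w.2⁻¹)) n)) =
        B'.lm (G.om w.1) (B'.rm (op (G.om w.2⁻¹)) (B'.rm (op G.y) n))
      rw [← B'.comm, rm_comm]
    rw [hs, hs, map_add, map_sum, map_sum]
    congr 1
    · rw [← Equiv.sum_comp (MulAction.toPerm w)]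
      refine Finset.sum_congr rfl fun o _ => ?_
      change s1 l L L' (F.c (w • o)) (m (w • o)) (wrp G.om B w n) = _
      rw [hm]
      exact s1_U l u1 u1' (fun n => F.cw w o n) (m o) n
    · rw [← Equiv.sum_comp (MulAction.toPerm w)]
      refine Finset.sum_congr rfl fun o _ => ?_
      change s2 l L Z L' Z' (F.d (w • o)) (m' (w • o)) (wrp G.om B w n) = _
      rw [hm']
      exact s2_U l u1 u1' u2 u2' (fun n => F.dw w o n) (m' o) n
  have gl : ∀ (w : W) (n : N), g (B.lm (G.om w) n) = B'.lm (G.om w) (g n) := by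
    intro w n
    have h := gU (w, 1) n
    change g (B.lm (G.om w) (B.rm (op (G.om 1⁻¹)) n)) =
      B'.lm (G.om w) (B'.rm (op (G.om 1⁻¹)) (g n)) at h
    simpa using h
  have gr : ∀ (w : W) (n : N), g (B.rm (op (G.om w)) n) = B'.rm (op (G.om w)) (g n) := by
    intro w n
    have h := gU (1, w⁻¹) n
    change g (B.lm (G.om 1) (B.rm (op (G.om w⁻¹⁻¹)) n)) =
      B'.lm (G.om 1) (B'.rm (op (G.om w⁻¹⁻¹)) (g n)) at h
    simpa using h
  have gLk : ∀ (k : ℕ) (n : N), g (B.lm (G.y ^ k) n) = B'.lm (G.y ^ k) (g n) := by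
    intro k
    rw [pL, pL']
    induction k with
    | zero => intro n; simp
    | succ k ih => intro n; rw [pow_succ', Module.End.mul_apply, gL, ih, pow_succ',
        Module.End.mul_apply]
  have gZk : ∀ (k : ℕ) (n : N), g (B.rm (op (G.y ^ k)) n) = B'.rm (op (G.y ^ k)) (g n) := by
    intro k
    rw [pZ, pZ']
    induction k with
    | zero => intro n; simp
    | succ k ih => intro n; rw [pow_succ', Module.End.mul_apply, gZ, ih, pow_succ',
        Module.End.mul_apply]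
  refine ⟨g, ⟨?_, ?_⟩, hg⟩
  · intro γ n
    rw [← G.ex γ]
    simp only [map_sum, map_smul, map_mul, LinearMap.sum_apply, LinearMap.smul_apply,
      Module.End.mul_apply]
    refine Finset.sum_congr rfl fun k _ => Finset.sum_congr rfl fun w _ => ?_
    rw [gLk, gl]
  · intro γ n
    have e1 : γ = (opLinearEquiv R : Γ ≃ₗ[R] Γᵐᵒᵖ) (∑ k ∈ Finset.range l, ∑ w,
        G.co k w γ.unop • (G.y ^ k * G.om w)) := by
      rw [G.ex]
      rfl
    rw [e1]
    simp only [map_sum, map_smul, LinearMap.sum_apply, LinearMap.smul_apply]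
    refine Finset.sum_congr rfl fun k _ => Finset.sum_congr rfl fun w _ => ?_
    have e2 : (opLinearEquiv R : Γ ≃ₗ[R] Γᵐᵒᵖ) (G.y ^ k * G.om w) =
        op (G.om w) * op (G.y ^ k) := op_mul _ _
    rw [e2, map_mul, map_mul, Module.End.mul_apply, Module.End.mul_apply, gr, gZk]

end Pool.Agent.PFE.H15
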