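import Pool.Agent.PFE.StmtsE2c

/-! # RAT: the dimension formula for `PMidN` -/

set_option autoImplicit false

open scoped BigOperators TensorProduct

noncomputable section

namespace Pool.Agent.PFE.H15

open MulOpposite
open Pool.Agent.PFC (tw)
open Pool.Agent.PFC.B1 (FS Split BiM Sep)
open Pool.Agent.PFD
open Pool.Agent.PFD.D2
open Pool.Agent.PFD.D2b (wrp FPl FrR WFS)
open Pool.Agent.PFE

/-- the image of the eigenvector -/
theorem il_comp {F V V1 A : Type} [Field F] [CommGroup V] [CommGroup V1] [Ring A] [Algebra F A]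
    (α : V →* A) (i : V1 →* V) (j : MonoidAlgebra F V →ₐ[F] A)
    (hj : ∀ u, j (MonoidAlgebra.of F V u) = α u) (x : MonoidAlgebra F V1) :
    j (il (MonoidAlgebra.of F V) i x) = il α i x := by
  have h : j.comp (il (MonoidAlgebra.of F V) i) = il α i := by
    apply MonoidAlgebra.algHom_ext
    · intro v
      change j (il (MonoidAlgebra.of F V) i (MonoidAlgebra.single v 1)) =
        il α i (MonoidAlgebra.single v 1)
      unfold il
      rw [MonoidAlgebra.lift_single, MonoidAlgebra.lift_single, one_smul, one_smul]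
      exact hj (i v)
    · exact AlgHom.ext fun r => by
        have h2 := AlgHom.commutes ((j.comp (il (MonoidAlgebra.of F V) i)).comp
          MonoidAlgebra.singleOneAlgHom) r
        have h3 := AlgHom.commutes ((il α i).comp MonoidAlgebra.singleOneAlgHom) r
        exact h2.trans h3.symm
  exact congrArg (fun f : MonoidAlgebra F V1 →ₐ[F] A => f x) h

theorem rat (hT : TxnStmt) (hY : Y0eStmt) (hG : GyeStmt) (hF : FltStmt) (hS : SgyStmt)
    (hP : TprStmt) (h1 : Sg1Stmt) : RatStmt := by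
  intro ℓ F V E A V1 C S S0 _ _ _ _ _ _ _ _ _ _ _ _ _ _ _ _ _ φ NN α i W θ q q0 hC hM hcard hi
    hiW hiW' hW hce hec hθ hQ hq hq0
  classical
  haveI : Fact ℓ.Prime := ⟨hC.pr⟩
  haveI : FiniteDimensional F A := hM.fin
  haveI : Fintype W := Fintype.ofFinite W
  haveI : FiniteDimensional F (MonoidAlgebra F V) := inferInstance
  obtain ⟨z, T, hT'⟩ := hT F V E A ℓ φ NN α hC hM
  obtain ⟨Y⟩ := hY ℓ F V1 hcard
  have hl : 1 ≤ ℓ := hC.pr.one_le
  obtain ⟨G, hGy, hGo⟩ := hG F V V1 i W ℓ Y hl hi hiW hiW'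
  obtain ⟨N, K, Ω, Ω', _, _, _, _, _, _, fl, hfl⟩ := hF ℓ F V E A V1 C φ NN α z T i W θ Y G hC hM
    hT' hcard hi hiW hiW' hW hce hec hQ hGy hGo
  have e1 : fl.j G.y = il α i Y.y := by
    rw [hGy]
    exact il_comp α i fl.j hfl Y.y
  obtain ⟨L, -⟩ := hS F V V1 C A S α i θ q ℓ Y hl hq
  have key : ∀ (y : A) (_ : y = fl.j G.y) (L : LS F A C S y ℓ (Y.χ.comp θ)),
      Module.finrank F (Subalgebra.center F A) = Module.finrank F (Subalgebra.center F S) +
        (ℓ - 1) / Fintype.card C * Module.finrank F (Subalgebra.center F L.toGS.S1) := by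
    intro y hy L
    subst hy
    exact hP F (MonoidAlgebra F V) W A N K Ω Ω' C S ℓ G (Y.χ.comp θ) fl L
      (fun x => Y.χl (θ x)) (fun x hx => hθ x (Y.χi (θ x) hx))
  rw [key _ e1.symm L, h1 F V V1 C A S S0 α i θ q0 ℓ Y L hl hq0]

end Pool.Agent.PFE.H15
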