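import Pool.Agent.PFE.StmtsE2b

/-! # S1F: the special fibre of the part of degree one -/

set_option autoImplicit false

open scoped BigOperators TensorProduct

noncomputable section

namespace Pool.Agent.PFE.H15

open MulOpposite
open Pool.Agent.PFC.B1 (FS Split BiM Sep)
open Pool.Agent.PFD (RF)
open Pool.Agent.PFD.D2
open Pool.Agent.PFE

theorem s1f : S1fStmt := by
  intro R F S S0 X _ _ _ _ c _ _ _ _ _ _ _ _ G G0 fs hfs
  have hmem : ∀ s : G.S1, fs.q (s : S) ∈ G0.S1 := by
    intro s
    change G0.c 1 (fs.q (s : S)) = fs.q (s : S)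
    rw [← hfs]
    exact congrArg fs.q s.2
  have hc1 : ∀ s : S, G.c 1 s ∈ G.S1 := fun s => G.ci 1 s
  refine ⟨?_, ?_, ?_⟩
  · haveI : IsNoetherian R S := isNoetherian_of_isNoetherianRing_of_finite R S
    exact Module.Finite.of_injective G.S1.val.toLinearMap Subtype.val_injective
  · obtain ⟨n, ⟨b⟩⟩ := Submodule.nonempty_basis_of_pid (Module.Free.chooseBasis R S)
      (Subalgebra.toSubmodule G.S1)
    exact Module.Free.of_basis b
  · refine ⟨{ q := (fs.q.comp G.S1.val.toRingHom).codRestrict G0.S1 hmem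
              sc := ?_
              surj := ?_
              ker := ?_ }, ?_⟩
    · intro r
      exact Subtype.ext (fs.sc r)
    · intro t
      obtain ⟨s, hs⟩ := fs.surj (t : S0)
      refine ⟨⟨G.c 1 s, hc1 s⟩, Subtype.ext ?_⟩
      change fs.q (G.c 1 s) = (t : S0)
      rw [hfs, hs]
      exact t.2
    · intro x hx
      have h1 : fs.q (x : S) = 0 := congrArg (fun t : G0.S1 => (t : S0)) hx
      obtain ⟨y, hy⟩ := fs.ker _ h1
      refine ⟨⟨G.c 1 y, hc1 y⟩, Subtype.ext ?_⟩
      change (x : S) = c.π • G.c 1 y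
      rw [← map_smul, ← hy]
      exact x.2.symm
    · intro s
      rfl

end Pool.Agent.PFE.H15
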